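import Pool.Agent.H64.FTM.Targets2
import Pool.Agent.H64.EK.Final

/-!
# The numerical motive of a generic complete intersection: the final assembly
-/

set_option autoImplicit false

open Matrix Pool.Agent.H64.CC Pool.Agent.H2.NL Pool.Agent.H2.KM

namespace Pool.Agent.H64.FTM

open Pool.Agent.H64.NLW Pool.Agent.H64.EV Pool.Agent.H64.NMW Pool.Agent.H64.EK

variable {K : Type} [Field K] [CharZero K] (W : Weil K) (hW : W.Theory)

/-- from the abstract theorem to correspondences -/
theorem taut_core (hGLO : T_GLO) (hWPU : T_WPU) (hWNU : T_WNU)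
    {m : ℕ} {T : W.Var m} (P : W.Powers T) (ε : W.Hom T T) {J E : Type} [Fintype J]
    [DecidableEq J] [Fintype E] [DecidableEq E] (F : OForm K J) (G : OForm K E)
    (j : Matrix (Fin (W.rk T)) (J ⊕ E) K) (i : Matrix (J ⊕ E) (Fin (W.rk T)) K)
    (hB : Basis W P ε F G j i)
    (hrat : ∀ t ∈ AR (pull j P.toPowerData.classes) 1, ∃ q : ℚ, con F.η 0 t [] = (q : K))
    (z : K) (b : ℕ) (hz : z = -1 → Even (W.dim T))
    (hFT : ∀ k a : ℕ, a ≤ 2 * k → FTa F G (pull j P.toPowerData.classes) z b k a)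
    (k : ℕ) {f : W.Hom (P.pow k) (P.pow k)} (hf : f ∈ W.cyc (P.pow k) (P.pow k) 0) :
    ∃ g ∈ P.Taut ε b k, W.NumTrivial (P.pow k) (f - g) := by
  obtain ⟨t, ht, hft, hnum⟩ := hWNU K W m T P ε J E F G j i hB k f hf
  obtain ⟨s, hs, hs'⟩ := hGLO K J E F G _ hB.mcal hrat z b hFT k (ev (2 * k) t) ⟨t, ht, rfl⟩
  obtain ⟨t', ht', hg⟩ := hWPU K W m T P ε J E F G j i hB z b hz k s hs
  refine ⟨_, hg, hnum t' ?_⟩
  rw [ht']
  exact hs'

include hW in
/-- **The numerical motive.** Every correspondence between powers of a generic complete intersection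
is numerically equivalent to a tautological one. -/
theorem taut_of (hMRE : T_MRE) (hMRO : T_MRO) (hKMX : T_KMX) (hINO : T_INO) (hINE : T_INE)
    (hGLO : T_GLO) (hMSE : T_MSE) (hMSO : T_MSO) (hWPU : T_WPU) (hWNU : T_WNU)
    {V : W.Var 0} {L : W.Hom V V} (hL : L ∈ W.Lef V) {r m : ℕ} {T : W.Var m}
    (S : W.Deligne V L r T) {ε : W.Hom T T} {b : ℕ} (R : Weil.Remainder S ε b) (k : ℕ)
    {f : W.Hom (S.powers.pow k) (S.powers.pow k)}
    (hf : f ∈ W.cyc (S.powers.pow k) (S.powers.pow k) 0) :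
    ∃ g ∈ S.powers.Taut ε b k, W.NumTrivial (S.powers.pow k) (f - g) := by
  have hεmax : ∀ f ∈ W.cyc T T 0, (∀ u, W.Vanishing S.toGenericIntersection u → W.ap f u = 0) →
      W.str (f * (1 - ε)) = 0 := R.max
  rcases Nat.even_or_odd (W.dim T) with h | h
  · obtain ⟨n, n', n'', F, G, j, i, hB, hS, hM⟩ := hMSE K W hW V L hL r m T (toOrt S h) ε R.mem
      R.idem R.adj (kills W S R) hεmax
    have hsd : F.sd = (b : K) := by
      rw [← hB.str, R.euler, h.neg_one_pow, one_mul]
    have hMRL := hMRE K (Fin n) (Fin n') (Fin n'') F G _ hB.mcal hS hM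
    have hER := e_OER K (Fin n) (Fin n') F _ hS
    have hKM := hKMX K (Fin n ⊕ Fin n') (Fin n'') F G _ hB.mcal (-1) b (Or.inr rfl) fun t ht =>
      x_EKM K (Fin n ⊕ Fin n') F _ hS.calculus hER (b + 1) (by omega) (by
        rw [hsd]; push_cast; ring) t ht
    refine taut_core W hGLO hWPU hWNU S.powers ε F G j i hB (fun t ht => ?_) (-1) b
      (fun _ => h) (hINE K (Fin n ⊕ Fin n') (Fin n'') F G _ hB.mcal hMRL b hsd hKM) k hf
    obtain ⟨q, -, hq⟩ := hS.endo t ht
    refine ⟨q * b, ?_⟩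
    rw [hq, hsd]
    push_cast
    ring
  · obtain ⟨n, n', n'', F, G, j, i, hB, hS, hM⟩ := hMSO K W hW V L hL r m T (toSym S h) ε R.mem
      R.idem R.adj (kills W S R) hεmax
    have hsd : (toO F).sd = -(b : K) := by
      rw [← hB.str, R.euler, h.neg_one_pow, neg_one_mul]
    have hMRL := hMRO K (Fin n) (Fin n') (Fin n'') F G _ hB.mcal hS hM
    obtain ⟨-, l, hl, -, hsd'⟩ := r_SDM K (Fin n) (Fin n') F _ hS
    have hb2 : b + 1 = 2 * l - 1 := by
      have h1 : (b : K) = ((2 * l - 2 : ℕ) : K) := by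
        have h2 : F.sd = -(b : K) := hsd
        rw [h2] at hsd'
        rw [Nat.cast_sub (by omega)]
        push_cast
        linear_combination -hsd'
      have h2 : b = 2 * l - 2 := Nat.cast_injective h1
      omega
    have hKM := hKMX K (Fin n ⊕ Fin n') (Fin n'') (toO F) G _ hB.mcal 1 b (Or.inl rfl) (by
      intro t ht
      have hkim := k_KIM K (Fin n ⊕ Fin n') F _ hS.calculus l hl
        (fun x hx hsym => r_REC K (Fin n) (Fin n') F _ hS l x hl hsd' hx hsym)
      rw [hb2] at ht ⊢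
      have h3 := hkim t ht
      have h4 : Xp (1 : K) (toO F).o (1 : Matrix (Fin n ⊕ Fin n') (Fin n ⊕ Fin n') K)
          (2 * l - 1) = Sp F.o (1 : Matrix (Fin n ⊕ Fin n') (Fin n ⊕ Fin n') K) (2 * l - 1) := by
        ext u v
        exact (x_XPS K (Fin n ⊕ Fin n') (Fin n ⊕ Fin n') F.o F.o 1 (by
          intro a c hac
          by_cases h5 : a = c
          · rw [h5]
          · exact absurd (Matrix.one_apply_ne h5) hac) u.1 v.1).1
      rw [h4]
      exact h3)
    refine taut_core W hGLO hWPU hWNU S.powers ε (toO F) G j i hB (fun t ht => ?_) 1 b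
      (fun h1 => ?_) (hINO K (Fin n ⊕ Fin n') (Fin n'') (toO F) G _ hB.mcal hMRL b hsd hKM) k hf
    · obtain ⟨q, -, hq⟩ := hS.endo t ht
      refine ⟨-(q * b), ?_⟩
      have h5 : con F.η 0 t [] = (q : K) * F.sd := hq
      have h6 : F.sd = -(b : K) := hsd
      show con F.η 0 t [] = _
      rw [h5, h6]
      push_cast
      ring
    · exfalso
      have h3 : (2 : K) = 0 := by linear_combination h1
      exact two_ne_zero h3

end Pool.Agent.H64.FTM
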