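import Pool.Agent.H64.FTM.Rows
import Pool.Agent.H64.FTM.Final

/-!
# The adapted basis, and the main theorem for it
-/

set_option autoImplicit false

open Matrix Pool.Agent.H64.CC Pool.Agent.H2.NL Pool.Agent.H2.KM

namespace Pool.Agent.H64.FTM

open Pool.Agent.H64.NLW Pool.Agent.H64.EV Pool.Agent.H64.NMW Pool.Agent.H64.EK

variable {K : Type} [Field K] [CharZero K] (W : Weil K) (hW : W.Theory)

include hW in
/-- the adapted basis, and the main theorem for it -/
theorem core_basis {V : W.Var 0} {L : W.Hom V V} (hL : L ∈ W.Lef V) {r m : ℕ} {T : W.Var m}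
    (S : W.Deligne V L r T) {ε : W.Hom T T} {b : ℕ} (R : Weil.Remainder S ε b) :
    ∃ (n n' n'' : ℕ) (F : OForm K (Fin n ⊕ Fin n')) (G : OForm K (Fin n''))
      (j : Matrix (Fin (W.rk T)) ((Fin n ⊕ Fin n') ⊕ Fin n'') K)
      (i : Matrix ((Fin n ⊕ Fin n') ⊕ Fin n'') (Fin (W.rk T)) K) (z : K),
      Basis W S.powers ε F G j i ∧ (z = -1 → Even (W.dim T)) ∧
      F.sd = (if decide (Odd (W.dim T)) = true then -(b : K) else (b : K)) ∧
      (decide (Odd (W.dim T)) = true → Even b) ∧
      ∀ k a : ℕ, a ≤ 2 * k → FTa F G (pull j S.powers.toPowerData.classes) z b k a := by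
  have hεmax : ∀ f ∈ W.cyc T T 0, (∀ u, W.Vanishing S.toGenericIntersection u → W.ap f u = 0) →
      W.str (f * (1 - ε)) = 0 := R.max
  rcases Nat.even_or_odd (W.dim T) with h | h
  · obtain ⟨n, n', n'', F, G, j, i, hB, hS, hM⟩ := t_MSE K W hW V L hL r m T (toOrt S h) ε R.mem
      R.idem R.adj (kills W S R) hεmax
    have hsd : F.sd = (b : K) := by
      rw [← hB.str, R.euler, h.neg_one_pow, one_mul]
    have hMRL := t_MRE K (Fin n) (Fin n') (Fin n'') F G _ hB.mcal hS hM
    have hER := e_OER K (Fin n) (Fin n') F _ hS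
    have hKM := t_KMX K (Fin n ⊕ Fin n') (Fin n'') F G _ hB.mcal (-1) b (Or.inr rfl) fun t ht =>
      x_EKM K (Fin n ⊕ Fin n') F _ hS.calculus hER (b + 1) (by omega) (by
        rw [hsd]; push_cast; ring) t ht
    have hno : ¬ Odd (W.dim T) := Nat.not_odd_iff_even.2 h
    refine ⟨n, n', n'', F, G, j, i, -1, hB, fun _ => h, ?_, ?_,
      t_INE K (Fin n ⊕ Fin n') (Fin n'') F G _ hB.mcal hMRL b hsd hKM⟩
    · rw [decide_eq_false hno, hsd]
      simp
    · rw [decide_eq_false hno]
      simp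
  · obtain ⟨n, n', n'', F, G, j, i, hB, hS, hM⟩ := t_MSO K W hW V L hL r m T (toSym S h) ε R.mem
      R.idem R.adj (kills W S R) hεmax
    have hsd : (toO F).sd = -(b : K) := by
      rw [← hB.str, R.euler, h.neg_one_pow, neg_one_mul]
    have hMRL := t_MRO K (Fin n) (Fin n') (Fin n'') F G _ hB.mcal hS hM
    obtain ⟨-, l, hl, -, hsd'⟩ := r_SDM K (Fin n) (Fin n') F _ hS
    have hb2 : b + 1 = 2 * l - 1 := by
      have h1 : (b : K) = ((2 * l - 2 : ℕ) : K) := by
        have h2 : F.sd = -(b : K) := hsd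
        rw [h2] at hsd'
        rw [Nat.cast_sub (by omega)]
        push_cast
        linear_combination -hsd'
      have h2 : b = 2 * l - 2 := Nat.cast_injective h1
      omega
    have hKM := t_KMX K (Fin n ⊕ Fin n') (Fin n'') (toO F) G _ hB.mcal 1 b (Or.inl rfl) (by
      intro t ht
      have hkim := k_KIM K (Fin n ⊕ Fin n') F _ hS.calculus l hl
        (fun x hx hsym => r_REC K (Fin n) (Fin n') F _ hS l x hl hsd' hx hsym)
      rw [hb2] at ht ⊢
      have h3 := hkim t ht
      have h4 : Xp (1 : K) (toO F).o (1 : Matrix (Fin n ⊕ Fin n') (Fin n ⊕ Fin n') K)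
          (2 * l - 1) = Sp F.o (1 : Matrix (Fin n ⊕ Fin n') (Fin n ⊕ Fin n') K) (2 * l - 1) := by
        ext u v
        exact (x_XPS K (Fin n ⊕ Fin n') (Fin n ⊕ Fin n') F.o F.o 1 (by
          intro a c hac
          by_cases h5 : a = c
          · rw [h5]
          · exact absurd (Matrix.one_apply_ne h5) hac) u.1 v.1).1
      rw [h4]
      exact h3)
    refine ⟨n, n', n'', toO F, G, j, i, 1, hB, fun h1 => ?_, ?_, fun _ => ⟨l - 1, by omega⟩,
      t_INO K (Fin n ⊕ Fin n') (Fin n'') (toO F) G _ hB.mcal hMRL b hsd hKM⟩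
    · exfalso
      have h3 : (2 : K) = 0 := by linear_combination h1
      exact two_ne_zero h3
    · rw [decide_eq_true h, hsd]
      simp

end Pool.Agent.H64.FTM
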