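import Pool.Agent.H64.EK.Defs

/-!
# Tautological correspondences between powers of a generic complete intersection
-/

set_option autoImplicit false

open Matrix Pool.Agent.H2.NL

namespace Pool.Agent.H64.FTM

variable {K : Type} [Field K] {I : Type} [Fintype I]

/-- the endomorphism with the matrix `f`, acting at the place `j` of a tensor -/
def atp (f : Matrix I I K) : ℕ → (List I → K) → List I → K
  | 0, t, a :: l => ∑ b, f a b * t (b :: l)
  | 0, _, [] => 0
  | j + 1, t, a :: l => atp f j (fun l' => t (a :: l')) l
  | _ + 1, _, [] => 0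

/-- the tensor powers of the tensor of order two with the matrix `Ω` -/
def omk (Ω : Matrix I I K) : ℕ → List I → K
  | 0 => fun _ => 1
  | k + 1 => tp 2 (two Ω) (omk Ω k)

end Pool.Agent.H64.FTM

namespace Pool.Agent.H64.CC.Weil

open Pool.Agent.H64.FTM

variable {K : Type} [Field K] [CharZero K] {W : Weil K}

/-- the endomorphism of `H(T ^ k)` which is given by a tensor of order `2k` (the class of a
correspondence) -/
def PowerData.oper {m : ℕ} {T : W.Var m} (P : W.PowerData T) (k : ℕ)
    (t : List (Fin (W.rk T)) → K) : W.Hom (P.pow k) (P.pow k) :=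
  Matrix.of fun a b => opw P.form k t (P.word k a) (P.word k b)

/-- the class `t` on `T ^ n` comes from `V`, through the direct factor `(T, ε)`: `ε` acts as the
identity in each factor. Or, if `dim T` is even, `t` belongs to the rest `R` of the motive in the
first `b` factors, where it is alternating, and comes from `V` in the other factors -/
def PowerData.FromBase {m : ℕ} {T : W.Var m} (_P : W.PowerData T) (ε : W.Hom T T) (b n : ℕ)
    (t : List (Fin (W.rk T)) → K) : Prop :=
  (∀ j < n, ∀ w, w.length = n → atp ε j t w = t w) ∨
  (Even (W.dim T) ∧ b ≤ n ∧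
    (∀ j < n, ∀ w, w.length = n → atp ε j t w = if j < b then 0 else t w) ∧
    ∀ j, j + 2 ≤ b → ∀ w, w.length = n → sw (W.par T) j t w = -t w)

/-- the tautological correspondences from `T ^ k` to `T ^ k`: the `ℚ`-linear combinations of the
correspondences whose classes are obtained, by permutations of the `2k` factors, from the products
of the classes of the diagonal of `R = (T, 1 - ε)` and classes which come from `V` (`FromBase`) -/
def PowerData.Taut {m : ℕ} {T : W.Var m} (P : W.PowerData T) (ε : W.Hom T T) (b k : ℕ) :
    Submodule ℚ (W.Hom (P.pow k) (P.pow k)) :=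
  Submodule.span ℚ {f | ∃ i ≤ k, ∃ t ∈ P.classes (k - i), P.FromBase ε b (2 * (k - i)) t ∧
    ∃ js : List ℕ, (∀ j ∈ js, j + 2 ≤ 2 * k) ∧
      f = P.oper k (js.foldr (fun j t' => sw (W.par T) j t')
        (tp (2 * i) (omk ((1 - ε) * P.form⁻¹) i) t))}

end Pool.Agent.H64.CC.Weil
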