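import Pool.Agent.H64.EK.Targets
import Pool.Agent.H64.FTM.Taut

/-!
# The numerical motive of a generic complete intersection: definitions
-/

set_option autoImplicit false
set_option linter.unusedSectionVars false

open Matrix Pool.Agent.H64.CC Pool.Agent.H2.NL Pool.Agent.H2.KM Pool.Agent.H64.EV Pool.Agent.H64.EK

namespace Pool.Agent.H64.FTM

section words

variable {K : Type} [Field K] {I : Type}

/-- the Koszul sign of the permutation `σ` of the letters of the word `w` -/
def kap (o : I → Bool) {m : ℕ} (σ : Equiv.Perm (Fin m)) (w : Fin m → I) : K :=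
  ∏ p : Fin m × Fin m,
    if p.1 < p.2 ∧ σ.symm p.2 < σ.symm p.1 then ks K (o (w p.1)) (o (w p.2)) else 1

/-- the action of the permutations of the places on the tensors of order `m`, as functions on the
words of length `m` -/
def ac (o : I → Bool) {m : ℕ} (σ : Equiv.Perm (Fin m)) (t : (Fin m → I) → K) (w : Fin m → I) : K :=
  kap o σ w * t fun i => w (σ i)

/-- the tensor of order `m` which is given by `t`, as a function on the words of length `m` -/
def ev (m : ℕ) (t : List I → K) (w : Fin m → I) : K := t (List.ofFn w)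

/-- the reversed words -/
def rvf {m : ℕ} (t : (Fin m → I) → K) (w : Fin m → I) : K := t fun i => w i.rev

/-- the trivial character of the group of permutations (`z = 1`) or the sign (`z = -1`) -/
def chi (z : K) {α : Type} [Fintype α] [DecidableEq α] (σ : Equiv.Perm α) : K :=
  if Equiv.Perm.sign σ = 1 then 1 else z

/-- the permutations which fix the elements outside of `L` -/
def HL {α : Type} [Fintype α] [DecidableEq α] (L : Finset α) : Finset (Equiv.Perm α) :=
  Finset.univ.filter fun σ => ∀ i, i ∉ L → σ i = i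

/-- the classes, as functions on the words of length `2k` -/
def Af [CharZero K] (A : ℕ → Submodule ℚ (List I → K)) (k : ℕ) :
    Submodule ℚ ((Fin (2 * k) → I) → K) where
  carrier := {f | ∃ t ∈ A k, ev (2 * k) t = f}
  add_mem' := by
    rintro f g ⟨t, ht, rfl⟩ ⟨t', ht', rfl⟩
    exact ⟨t + t', (A k).add_mem ht ht', rfl⟩
  zero_mem' := ⟨0, (A k).zero_mem, rfl⟩
  smul_mem' := by
    rintro q f ⟨t, ht, rfl⟩
    exact ⟨q • t, (A k).smul_mem q ht, rfl⟩

/-- the pairing in parallel form -/
def pr [Fintype I] (F : OForm K I) {m : ℕ} (f g : (Fin m → I) → K) : K :=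
  ∑ w : Fin m → I, (∏ i, F.c (w i)) * f w * g fun i => F.st (w i)

end words

section two

variable {K : Type} [Field K] {J E : Type}

/-- the orthogonal sum of two forms -/
def osum (F : OForm K J) (G : OForm K E) : OForm K (J ⊕ E) where
  o := Sum.elim F.o G.o
  st := Sum.map F.st G.st
  c := Sum.elim F.c G.c
  st_st a := by
    cases a
    · exact congrArg Sum.inl (F.st_st _)
    · exact congrArg Sum.inr (G.st_st _)
  o_st a := by
    cases a
    · exact F.o_st _
    · exact G.o_st _
  c_ne a := by
    cases a
    · exact F.c_ne _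
    · exact G.c_ne _
  c_st a := by
    cases a
    · exact F.c_st _
    · exact G.c_st _

/-- hyperbolic forms are forms -/
def toO (F : Form K J) : OForm K J where
  o := F.o
  st := F.st
  c := F.c
  st_st := F.st_st
  o_st := F.o_st
  c_ne a := by
    rcases F.c_val a with h | h
    · rw [h]
      exact one_ne_zero
    · rw [h]
      exact neg_ne_zero.2 one_ne_zero
  c_st := F.c_st

/-- a tensor on the space with the basis `J`, as a tensor on the space with the basis `J ⊕ E` -/
def ext (E : Type) (t : List J → K) (w : List (J ⊕ E)) : K :=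
  if w.all Sum.isLeft = true then t (w.filterMap Sum.getLeft?) else 0

/-- the classes on the factor with the basis `J` -/
def AR [CharZero K] (A : ℕ → Submodule ℚ (List (J ⊕ E) → K)) (k : ℕ) :
    Submodule ℚ (List J → K) where
  carrier := {t | ext E t ∈ A k}
  add_mem' := by
    intro t t' h h'
    have e : ext E (t + t') = ext E t + ext E t' := by
      funext w
      show (if w.all Sum.isLeft = true then t _ + t' _ else 0) =
        (if w.all Sum.isLeft = true then t _ else 0) + if w.all Sum.isLeft = true then t' _ else 0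
      split_ifs
      · rfl
      · exact (add_zero 0).symm
    show ext E (t + t') ∈ A k
    rw [e]
    exact (A k).add_mem h h'
  zero_mem' := by
    have e : ext E (0 : List J → K) = 0 := by
      funext w
      show (if w.all Sum.isLeft = true then (0 : K) else 0) = 0
      split_ifs <;> rfl
    show ext E 0 ∈ A k
    rw [e]
    exact (A k).zero_mem
  smul_mem' := by
    intro q t h
    have e : ext E (q • t) = q • ext E t := by
      funext w
      show (if w.all Sum.isLeft = true then q • t _ else 0) =
        q • if w.all Sum.isLeft = true then t _ else 0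
      split_ifs
      · rfl
      · exact (smul_zero q).symm
    show ext E (q • t) ∈ A k
    rw [e]
    exact (A k).smul_mem q h

/-- the tensor `t` of order `n` is of type `a`: the first `a` places belong to the factor with the
basis `J`, and the other places to the factor with the basis `E` -/
def Ty (n a : ℕ) (t : List (J ⊕ E) → K) : Prop := ∀ w, w.length = n → t w ≠ 0 →
  ∃ (u : List J) (v : List E), u.length = a ∧ w = u.map Sum.inl ++ v.map Sum.inr

/-- the same for functions on words of length `m` -/
def Tyf {m : ℕ} (a : ℕ) (f : (Fin m → J ⊕ E) → K) : Prop :=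
  ∀ w, f w ≠ 0 → ∀ i : Fin m, (w i).isLeft = decide (i.1 < a)

variable [Fintype J] [DecidableEq J] [Fintype E] [DecidableEq E]

/-- the class of the diagonal of the factor with the basis `J` -/
def Om (F : OForm K J) (E : Type) [DecidableEq E] : Matrix (J ⊕ E) (J ⊕ E) K :=
  Matrix.fromBlocks F.ω 0 0 0

/-- the calculus of the classes of cycles on the powers of `T`, in a basis which is adapted to the
decomposition of the motive -/
structure MCal [CharZero K] (F : OForm K J) (G : OForm K E)
    (A : ℕ → Submodule ℚ (List (J ⊕ E) → K)) : Prop where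
  calculus : Calc (osum F G).o (osum F G).η (osum F G).ω A
  omR : two (Om F E) ∈ A 1

/-- the relation of the pairings, of exchanges and of contractions, for classes of type `a` -/
def MRL [CharZero K] (F : OForm K J) (G : OForm K E)
    (A : ℕ → Submodule ℚ (List (J ⊕ E) → K)) : Prop :=
  ∀ (k a : ℕ) (x y : List (J ⊕ E) → K), 1 ≤ k → 1 ≤ a → a ≤ 2 * k → x ∈ A k → rv y ∈ A k →
  Ty (2 * k) a x → Ty (2 * k) a y →
  (F.sd - 1) * (osum F G).Pr (2 * k) x y + ∑ i ∈ Finset.range (a - 1),
    ((osum F G).Pr (2 * k) (sw (osum F G).o 0 (mv (osum F G).o (i + 1) x))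
        (mv (osum F G).o (i + 1) y) -
      (osum F G).Pr (2 * k - 2) (con (osum F G).η 0 (mv (osum F G).o (i + 1) x))
        ((osum F G).con' (mv (osum F G).o (i + 1) y))) = 0

/-- the generators: all places belong to `E`; or, if `z = -1`, the tensor is of type `b` and
alternating in the first `b` places -/
def Bs (o : J ⊕ E → Bool) (z : K) (b n : ℕ) (t : List (J ⊕ E) → K) : Prop :=
  Ty n 0 t ∨ (z = -1 ∧ b ≤ n ∧ Ty n b t ∧
    ∀ j, j + 2 ≤ b → ∀ w, w.length = n → sw o j t w = -t w)

/-- the linear combinations of permuted products of diagonals of the factor with the basis `J` and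
of generators -/
def Tau [CharZero K] (F : OForm K J) (G : OForm K E) (A : ℕ → Submodule ℚ (List (J ⊕ E) → K))
    (z : K) (b k : ℕ) : Submodule ℚ ((Fin (2 * k) → J ⊕ E) → K) :=
  Submodule.span ℚ {f | ∃ i ≤ k, ∃ t ∈ A (k - i), Bs (osum F G).o z b (2 * (k - i)) t ∧
    ∃ σ : Equiv.Perm (Fin (2 * k)),
      f = ac (osum F G).o σ (ev (2 * k) (tp (2 * i) (omk (Om F E) i) t))}

/-- numerically trivial functions of type `a` -/
def NT [CharZero K] (F : OForm K J) (G : OForm K E) (A : ℕ → Submodule ℚ (List (J ⊕ E) → K))
    (k a : ℕ) (f : (Fin (2 * k) → J ⊕ E) → K) : Prop :=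
  ∀ y : (Fin (2 * k) → J ⊕ E) → K, rvf y ∈ Af A k → Tyf a y → pr (osum F G) f y = 0

/-- functions of type `a` which are orthogonal to `Tau` -/
def OT [CharZero K] (F : OForm K J) (G : OForm K E) (A : ℕ → Submodule ℚ (List (J ⊕ E) → K))
    (z : K) (b k a : ℕ) (f : (Fin (2 * k) → J ⊕ E) → K) : Prop :=
  ∀ y : (Fin (2 * k) → J ⊕ E) → K, rvf y ∈ Tau F G A z b k → Tyf a y → pr (osum F G) f y = 0

/-- the symmetrization (`z = 1`) or antisymmetrization (`z = -1`) over `b + 1` of the first `a`
places is numerically trivial -/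
def KM [CharZero K] (F : OForm K J) (G : OForm K E) (A : ℕ → Submodule ℚ (List (J ⊕ E) → K))
    (z : K) (b : ℕ) : Prop :=
  ∀ (k a : ℕ) (x y : (Fin (2 * k) → J ⊕ E) → K), x ∈ Af A k → rvf y ∈ Af A k → Tyf a x →
  Tyf a y → a ≤ 2 * k → ∀ L : Finset (Fin (2 * k)), L.card = b + 1 → (∀ i ∈ L, i.1 < a) →
  ∑ σ ∈ HL L, chi z σ * pr (osum F G) (ac (osum F G).o σ x) y = 0

/-- the theorem in degree `k`, for the type `a` -/
def FTa [CharZero K] (F : OForm K J) (G : OForm K E) (A : ℕ → Submodule ℚ (List (J ⊕ E) → K))
    (z : K) (b k a : ℕ) : Prop :=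
  ∀ x ∈ Af A k, Tyf a x → OT F G A z b k a x → NT F G A k a x

/-- the star relation -/
def Star [CharZero K] (F : OForm K J) (G : OForm K E) (A : ℕ → Submodule ℚ (List (J ⊕ E) → K))
    (k a : ℕ) (x : (Fin (2 * k) → J ⊕ E) → K) : Prop :=
  ∀ j : Fin (2 * k), j.1 < a → ∀ y : (Fin (2 * k) → J ⊕ E) → K, rvf y ∈ Af A k → Tyf a y →
  ∑ i ∈ Finset.univ.filter (fun i : Fin (2 * k) => i.1 < a ∧ i ≠ j),
    pr (osum F G) (ac (osum F G).o (Equiv.swap i j) x) y = (1 - F.sd) * pr (osum F G) x y

end two

end Pool.Agent.H64.FTM
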