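import Pool.Agent.H64.FTM.Targets2
import Pool.Agent.H64.EK.Rows
import Pool.Agent.H2.FTM.BRM
import Pool.Agent.H2.FTM.INE
import Pool.Agent.H21.FTM.MSE
import Pool.Agent.H21.FTM.MSO
import Pool.Agent.H35.FTM.GLO
import Pool.Agent.H35.FTM.OH1
import Pool.Agent.H38.FTM.KMX
import Pool.Agent.H4.FTM.ADE
import Pool.Agent.H51.FTM.AFA
import Pool.Agent.H62.FTM.LIN
import Pool.Agent.H62.FTM.STA
import Pool.Agent.H64.FTMR.ACT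
import Pool.Agent.H64.FTMR.KAP
import Pool.Agent.H64.FTMR.MVA
import Pool.Agent.H64.FTMR.PCN
import Pool.Agent.H64.FTMR.PRF
import Pool.Agent.H64.FTMR.PTC
import Pool.Agent.H64.FTMR.SPX
import Pool.Agent.H66.FTM.CUT
import Pool.Agent.H66.FTM.RAT
import Pool.Agent.H66.FTM.TYB
import Pool.Agent.H7.FTM.MRE
import Pool.Agent.H7.FTM.MRO
import Pool.Agent.H79.FTM.STP
import Pool.Agent.H85.FTM.WNU
import Pool.Agent.H85.FTM.WPU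

/-!
# The rows, composed
-/

set_option autoImplicit false

open Matrix Pool.Agent.H64.CC Pool.Agent.H2.NL Pool.Agent.H2.KM Pool.Agent.H64.EV Pool.Agent.H64.FTM

namespace Pool.Agent.H64.FTM

theorem t_KAP : T_KAP :=
  Pool.Agent.H64.FTMR.pf_KAP

theorem t_ACT : T_ACT :=
  Pool.Agent.H64.FTMR.pf_ACT t_KAP

theorem t_ADE : T_ADE :=
  Pool.Agent.H4.FTM.pf_ADE Pool.Agent.H64.EV.e_HYO Pool.Agent.H64.NLW.r_HYB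

theorem t_AFA : T_AFA :=
  Pool.Agent.H51.FTM.pf_AFA t_ACT

theorem t_TYB : T_TYB :=
  Pool.Agent.H66.FTM.pf_TYB

theorem t_PRF : T_PRF :=
  Pool.Agent.H64.FTMR.pf_PRF t_KAP

theorem t_BRM : T_BRM :=
  Pool.Agent.H2.FTM.pf_BRM t_ACT t_AFA t_TYB t_PRF

theorem t_CUT : T_CUT :=
  Pool.Agent.H66.FTM.pf_CUT t_KAP t_AFA

theorem t_LIN : T_LIN :=
  Pool.Agent.H62.FTM.pf_LIN

theorem t_RAT : T_RAT :=
  Pool.Agent.H66.FTM.pf_RAT t_TYB t_PRF Pool.Agent.H64.EV.e_ONN Pool.Agent.H64.EV.e_OMC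

theorem t_GLO : T_GLO :=
  Pool.Agent.H35.FTM.pf_GLO t_ACT t_AFA t_PRF t_TYB t_CUT t_BRM t_LIN t_RAT

theorem t_MVA : T_MVA :=
  Pool.Agent.H64.FTMR.pf_MVA t_ACT t_PRF

theorem t_STP : T_STP :=
  Pool.Agent.H79.FTM.pf_STP t_ACT t_AFA t_PRF t_MVA t_TYB t_BRM Pool.Agent.H64.EV.e_ORE

theorem t_STA : T_STA :=
  Pool.Agent.H62.FTM.pf_STA

theorem t_INE : T_INE :=
  Pool.Agent.H2.FTM.pf_INE t_KAP t_ACT t_AFA t_TYB t_PRF t_STP t_STA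

theorem t_INO : T_INO :=
  Pool.Agent.H2.FTM.pf_INO t_ACT t_AFA t_TYB t_PRF t_STP t_STA

theorem t_PCN : T_PCN :=
  Pool.Agent.H64.FTMR.pf_PCN

theorem t_PTC : T_PTC :=
  Pool.Agent.H64.FTMR.pf_PTC

theorem t_SPX : T_SPX :=
  Pool.Agent.H64.FTMR.pf_SPX Pool.Agent.H64.EK.x_XPS Pool.Agent.H64.NMW.k_SPH

theorem t_KMX : T_KMX :=
  Pool.Agent.H38.FTM.pf_KMX t_KAP t_ACT t_AFA t_PRF t_TYB t_PCN t_PTC t_SPX

theorem t_MRE : T_MRE :=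
  Pool.Agent.H7.FTM.pf_MRE Pool.Agent.H64.EV.e_ODE Pool.Agent.H64.EV.e_OMV Pool.Agent.H64.EV.e_OMC Pool.Agent.H64.EV.e_ONN Pool.Agent.H64.EV.e_OHT Pool.Agent.H64.EV.e_OKE Pool.Agent.H64.EV.e_OMU Pool.Agent.H64.EV.e_OUN

theorem t_OH1 : T_OH1 :=
  Pool.Agent.H35.FTM.pf_OH1

theorem t_MRO : T_MRO :=
  Pool.Agent.H7.FTM.pf_MRO Pool.Agent.H64.EV.e_ODE Pool.Agent.H64.EV.e_OMV Pool.Agent.H64.EV.e_OMC Pool.Agent.H64.EV.e_ONN t_OH1 Pool.Agent.H64.NLW.r_KEY Pool.Agent.H64.NLW.r_MUL Pool.Agent.H64.NLW.r_UNI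

theorem t_MSE : T_MSE :=
  Pool.Agent.H21.FTM.pf_MSE Pool.Agent.H64.EV.e_VAO Pool.Agent.H64.EV.e_ADO Pool.Agent.H64.EV.e_SYO Pool.Agent.H64.NLW.r_TRF Pool.Agent.H64.NLW.r_PFA Pool.Agent.H64.NLW.r_PFB Pool.Agent.H64.EK.x_NNX t_ADE

theorem t_MSO : T_MSO :=
  Pool.Agent.H21.FTM.pf_MSO Pool.Agent.H64.NLW.r_VAN Pool.Agent.H64.NLW.r_ADA Pool.Agent.H64.NLW.r_SYS Pool.Agent.H64.NLW.r_TRF Pool.Agent.H64.NLW.r_PFA Pool.Agent.H64.NLW.r_PFB Pool.Agent.H64.NMW.k_NTN t_ADE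

theorem t_WNU : T_WNU :=
  Pool.Agent.H85.FTM.pf_WNU t_PRF Pool.Agent.H64.EV.e_OTP Pool.Agent.H64.NLW.r_OPJ Pool.Agent.H64.NLW.r_PFB

theorem t_WPU : T_WPU :=
  Pool.Agent.H85.FTM.pf_WPU t_ACT Pool.Agent.H64.NLW.r_PFA

end Pool.Agent.H64.FTM
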