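import Pool.Agent.H64.FTM.Defs

/-!
# Targets: the numerical motive of a generic complete intersection
-/

set_option autoImplicit false

open Matrix Pool.Agent.H64.CC Pool.Agent.H2.NL Pool.Agent.H2.KM Pool.Agent.H64.EV Pool.Agent.H64.EK

namespace Pool.Agent.H64.FTM

/-! ### Permutations of the places -/

/-- KAP: the Koszul signs. -/
def T_KAP : Prop := ∀ (K : Type) [Field K] (I : Type) (o : I → Bool) (m : ℕ),
  (∀ (σ τ : Equiv.Perm (Fin m)) (w : Fin m → I),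
    kap (K := K) o (σ * τ) w = kap o σ w * kap o τ (fun i => w (σ i))) ∧
  (∀ w : Fin m → I, kap (K := K) o 1 w = 1) ∧
  (∀ (σ : Equiv.Perm (Fin m)) (w : Fin m → I), kap (K := K) o σ w * kap o σ w = 1) ∧
  (∀ (j : ℕ) (h : j + 1 < m) (w : Fin m → I),
    kap (K := K) o (Equiv.swap ⟨j, Nat.lt_of_succ_lt h⟩ ⟨j + 1, h⟩) w =
      ks K (o (w ⟨j, Nat.lt_of_succ_lt h⟩)) (o (w ⟨j + 1, h⟩)))

/-- ACT: the action. -/
def T_ACT : Prop := ∀ (K : Type) [Field K] (I : Type) (o : I → Bool) (m : ℕ),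
  (∀ (σ τ : Equiv.Perm (Fin m)) (f : (Fin m → I) → K),
    ac o (σ * τ) f = ac o σ (ac o τ f)) ∧
  (∀ f : (Fin m → I) → K, ac o 1 f = f) ∧
  (∀ (j : ℕ) (h : j + 1 < m) (t : List I → K),
    ev m (sw o j t) = ac o (Equiv.swap ⟨j, Nat.lt_of_succ_lt h⟩ ⟨j + 1, h⟩) (ev m t)) ∧
  (∀ σ : Equiv.Perm (Fin m), ∃ js : List ℕ, (∀ j ∈ js, j + 2 ≤ m) ∧
    ∀ t : List I → K, ev m (sws o js t) = ac o σ (ev m t))

/-- AFA: the classes. -/
def T_AFA : Prop := ∀ (K : Type) [Field K] [CharZero K] (I : Type) [Fintype I] [DecidableEq I]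
  (o : I → Bool) (η ω : Matrix I I K) (A : ℕ → Submodule ℚ (List I → K)), Calc o η ω A →
  (∀ (k : ℕ) (t : List I → K), ev (2 * k) t ∈ Af A k → t ∈ A k) ∧
  (∀ (k : ℕ) (σ : Equiv.Perm (Fin (2 * k))), ∀ f ∈ Af A k, ac o σ f ∈ Af A k)

/-- PRF: the pairing. -/
def T_PRF : Prop := ∀ (K : Type) [Field K] (I : Type) [Fintype I] [DecidableEq I] (F : OForm K I)
  (m : ℕ),
  (∀ f g : List I → K, F.Pr m f g = pr F (ev m f) (ev m g)) ∧
  (∀ (σ : Equiv.Perm (Fin m)) (f g : (Fin m → I) → K),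
    pr F (ac F.o σ f) g = pr F f (ac F.o σ⁻¹ g)) ∧
  (∀ (σ : Equiv.Perm (Fin m)) (f : (Fin m → I) → K),
    rvf (ac F.o σ f) = ac F.o (Fin.revPerm * σ * Fin.revPerm) (rvf f)) ∧
  (∀ t : List I → K, ev m (rv t) = rvf (ev m t))

/-- MVA: moved places. -/
def T_MVA : Prop := ∀ (K : Type) [Field K] (I : Type) [Fintype I] [DecidableEq I] (F : OForm K I)
  (m : ℕ) (hm : 0 < m) (i : Fin m), 0 < i.1 →
  (∃ τ : Equiv.Perm (Fin m), (∀ t : List I → K, ev m (mv F.o i.1 t) = ac F.o τ (ev m t)) ∧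
    τ ⟨0, hm⟩ = ⟨0, hm⟩ ∧ (τ i).1 = 1 ∧ ∀ p : Fin m, i.1 < p.1 → τ p = p) ∧
  ∀ x y : List I → K, F.Pr m (sw F.o 0 (mv F.o i.1 x)) (mv F.o i.1 y) =
    pr F (ac F.o (Equiv.swap ⟨0, hm⟩ i) (ev m x)) (ev m y)

/-- TYB: types. -/
def T_TYB : Prop := ∀ (K : Type) [Field K] (J E : Type) [Fintype J] [DecidableEq J] [Fintype E]
  [DecidableEq E] (m a : ℕ), a ≤ m →
  (∀ t : List (J ⊕ E) → K, Ty m a t ↔ Tyf a (ev m t)) ∧
  (∀ (o : J ⊕ E → Bool) (σ : Equiv.Perm (Fin m)) (f : (Fin m → J ⊕ E) → K),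
    (∀ i : Fin m, (σ i).1 < a ↔ i.1 < a) → Tyf a f → Tyf a (ac o σ f)) ∧
  (∀ (F : OForm K J) (G : OForm K E) (f g : (Fin m → J ⊕ E) → K) (a' : ℕ), a' ≤ m → Tyf a f →
    Tyf a' g → a ≠ a' → pr (osum F G) f g = 0)

/-- CUT: the projection at one place. -/
def T_CUT : Prop := ∀ (K : Type) [Field K] [CharZero K] (J E : Type) [Fintype J] [DecidableEq J]
  [Fintype E] [DecidableEq E] (F : OForm K J) (G : OForm K E)
  (A : ℕ → Submodule ℚ (List (J ⊕ E) → K)), MCal F G A →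
  ∀ (k : ℕ) (j : Fin (2 * k)), ∀ f ∈ Af A k,
    (fun w => if (w j).isLeft = true then f w else 0) ∈ Af A k

/-! ### The relation -/

/-- OH1: the tensor `h`, for odd letters. -/
def T_OH1 : Prop := ∀ (K : Type) [Field K] [CharZero K] (I : Type) [Fintype I] [DecidableEq I]
  (F : OForm K I) (A : ℕ → Submodule ℚ (List I → K)), Calc F.o F.η F.ω A →
  ∀ (c1 : I → I → K) (c2 : I → I → I → I → K), two (Matrix.of c1) ∈ A 1 → four c2 ∈ A 2 →
  ∃ t ∈ A 2,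
    (∀ x p q, F.o p = true → F.o q = true → F.M4 t x (p, q) + F.M4 t x (q, p) =
      (if x.1 = p then F.c q * c1 (F.st q) x.2 else 0) +
      (if x.1 = q then F.c p * c1 (F.st p) x.2 else 0) +
      F.c p * F.c q * (c2 x.1 (F.st q) (F.st p) x.2 + c2 x.1 (F.st p) (F.st q) x.2)) ∧
    F.str2 (F.M4 t) = F.sd * ∑ a, F.c a * c1 a (F.st a) +
      ∑ a, ∑ b, ks K (F.o a) (F.o b) * F.c a * F.c b * c2 a b (F.st a) (F.st b) ∧
    F.str2 (F.M4 t * F.Sx) = ∑ a, F.c a * c1 a (F.st a) +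
      ∑ a, ∑ d, F.c a * F.c (F.st d) * c2 a (F.st a) (F.st d) d

/-- MRE: the relation for classes of type `a`, even dimension. -/
def T_MRE : Prop := ∀ (K : Type) [Field K] [CharZero K] (V P E : Type) [Fintype V] [DecidableEq V]
  [Fintype P] [DecidableEq P] [Fintype E] [DecidableEq E] (F : OForm K (V ⊕ P)) (G : OForm K E)
  (A : ℕ → Submodule ℚ (List ((V ⊕ P) ⊕ E) → K)), MCal F G A → OSys F (AR A) →
  (∀ (p q : V) (k : ℕ), ∀ t ∈ A k, ∀ w, w.length = 2 * k →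
    der (Matrix.fromBlocks (F.T (Sum.inl p) (Sum.inl q)) 0 0 (0 : Matrix E E K)) t w = 0) →
  MRL F G A

/-- MRO: the relation for classes of type `a`, odd dimension. -/
def T_MRO : Prop := ∀ (K : Type) [Field K] [CharZero K] (V P E : Type) [Fintype V] [DecidableEq V]
  [Fintype P] [DecidableEq P] [Fintype E] [DecidableEq E] (F : Form K (V ⊕ P)) (G : OForm K E)
  (A : ℕ → Submodule ℚ (List ((V ⊕ P) ⊕ E) → K)), MCal (toO F) G A → Sys F (AR A) →
  (∀ (p q : V) (k : ℕ), ∀ t ∈ A k, ∀ w, w.length = 2 * k →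
    der (Matrix.fromBlocks (F.T (Sum.inl p) (Sum.inl q)) 0 0 (0 : Matrix E E K)) t w = 0) →
  MRL (toO F) G A

/-! ### Symmetrizations -/

/-- PCN: the partial contraction. -/
def T_PCN : Prop := ∀ (K : Type) [Field K] [CharZero K] (I : Type) [Fintype I] [DecidableEq I]
  (F : OForm K I) (A : ℕ → Submodule ℚ (List I → K)), Calc F.o F.η F.ω A →
  ∀ (k n : ℕ) (x y : List I → K), n ≤ 2 * k → x ∈ A k → rv y ∈ A k →
  ∃ z ∈ A n, ∀ v v' : List I, v.length = n → v'.length = n →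
    z (v ++ v') = F.Pr (2 * k - n) (fun w => x (v ++ w)) (fun w => y (v'.reverse ++ w))

/-- PTC: the supertrace of a composition with the partial contraction. -/
def T_PTC : Prop := ∀ (K : Type) [Field K] (I : Type) [Fintype I] [DecidableEq I] (F : OForm K I)
  (k n : ℕ) (x y z : List I → K), n ≤ 2 * k →
  (∀ w, w.length = 2 * k → x w ≠ 0 → Even (odds F.o w)) →
  (∀ w, w.length = 2 * k → y w ≠ 0 → Even (odds F.o w)) →
  (∀ v v' : List I, v.length = n → v'.length = n →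
    z (v ++ v') = F.Pr (2 * k - n) (fun w => x (v ++ w)) (fun w => y (v'.reverse ++ w))) →
  ∀ Q : Matrix (List.Vector I n) (List.Vector I n) K,
  ∑ u : List.Vector I n, sgw K F.o u.1 * (op F.η n z * Q) u u =
    ∑ u : List.Vector I n, (u.1.map F.c).prod * F.Pr (2 * k - n)
      (fun w => ∑ v : List.Vector I n, Q u v * x (v.1 ++ w)) (fun w => y (u.1.map F.st ++ w))

/-- SPX: the symmetrizer (antisymmetrizer) of a symmetric (antisymmetric) tensor. -/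
def T_SPX : Prop := ∀ (K : Type) [Field K] (I : Type) [Fintype I] [DecidableEq I] (o : I → Bool)
  (z : K), z = 1 ∨ z = -1 → ∀ (n : ℕ) (h : List I → K),
  (∀ j, j + 2 ≤ n → ∀ w, w.length = n → sw o j h w = z * h w) → ∀ u : List I, u.length = n →
  ∑ w : List.Vector I n, xp z o (1 : Matrix I I K) u w.1 * h w.1 = (n.factorial : K) * h u

/-- KMX: the symmetrization over `b + 1` places of the factor `J` is numerically trivial. -/
def T_KMX : Prop := ∀ (K : Type) [Field K] [CharZero K] (J E : Type) [Fintype J] [DecidableEq J]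
  [Fintype E] [DecidableEq E] (F : OForm K J) (G : OForm K E)
  (A : ℕ → Submodule ℚ (List (J ⊕ E) → K)), MCal F G A → ∀ (z : K) (b : ℕ), z = 1 ∨ z = -1 →
  (∀ t ∈ AR A (b + 1), ∑ u : List.Vector J (b + 1), sgw K F.o u.1 *
    (op F.η (b + 1) t * Xp z F.o (1 : Matrix J J K) (b + 1)) u u = 0) → KM F G A z b

/-! ### The main induction -/

/-- STA: all star sums of transpositions act as the same scalar. -/
def T_STA : Prop := ∀ (K : Type) [Field K] [CharZero K] (α : Type) [Fintype α] [DecidableEq α]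
  (M : Type) [AddCommGroup M] [Module K M] (ρ : Equiv.Perm α →* Module.End K M)
  (R : Submodule K M), (∀ g, ∀ v ∈ R, ρ g v ∈ R) → ∀ (x : M) (c : ℤ) (n : ℕ),
  (∀ j : α, ∑ i ∈ Finset.univ.erase j, ρ (Equiv.swap i j) x - (c : K) • x ∈ R) →
  (∀ L : Finset α, L.card = n + 1 → ∑ σ ∈ HL L, ρ σ x ∈ R) → 0 < Fintype.card α → x ∉ R →
  ∃ l : ℕ, 1 ≤ l ∧ l ≤ n ∧ (Fintype.card α : ℤ) = l * (l - c)

/-- BRM: the space `Tau`. -/
def T_BRM : Prop := ∀ (K : Type) [Field K] [CharZero K] (J E : Type) [Fintype J] [DecidableEq J]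
  [Fintype E] [DecidableEq E] (F : OForm K J) (G : OForm K E)
  (A : ℕ → Submodule ℚ (List (J ⊕ E) → K)), MCal F G A → ∀ (z : K) (b : ℕ),
  (∀ k, Tau F G A z b k ≤ Af A k) ∧
  (∀ (k : ℕ) (σ : Equiv.Perm (Fin (2 * k))), ∀ f ∈ Tau F G A z b k,
    ac (osum F G).o σ f ∈ Tau F G A z b k) ∧
  (∀ (k a : ℕ) (x : List (J ⊕ E) → K) (y : (Fin (2 * k) → J ⊕ E) → K), a ≤ 2 * k →
    Ty (2 * (k + 1)) (a + 2) x → rvf y ∈ Tau F G A z b k → Tyf a y →
    ∃ y' : (Fin (2 * (k + 1)) → J ⊕ E) → K, rvf y' ∈ Tau F G A z b (k + 1) ∧ Tyf (a + 2) y' ∧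
      pr (osum F G) (ev (2 * k) (con (osum F G).η 0 x)) y = pr (osum F G) (ev (2 * (k + 1)) x) y')

/-- STP: the star relation. -/
def T_STP : Prop := ∀ (K : Type) [Field K] [CharZero K] (J E : Type) [Fintype J] [DecidableEq J]
  [Fintype E] [DecidableEq E] (F : OForm K J) (G : OForm K E)
  (A : ℕ → Submodule ℚ (List (J ⊕ E) → K)), MCal F G A → MRL F G A → ∀ (z : K) (b k a : ℕ),
  1 ≤ a → a ≤ 2 * k → (2 ≤ a → FTa F G A z b (k - 1) (a - 2)) → ∀ x ∈ Af A k, Tyf a x →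
  OT F G A z b k a x → Star F G A k a x

/-- INO: the main theorem in odd dimension. -/
def T_INO : Prop := ∀ (K : Type) [Field K] [CharZero K] (J E : Type) [Fintype J] [DecidableEq J]
  [Fintype E] [DecidableEq E] (F : OForm K J) (G : OForm K E)
  (A : ℕ → Submodule ℚ (List (J ⊕ E) → K)), MCal F G A → MRL F G A → ∀ b : ℕ,
  F.sd = -(b : K) → KM F G A 1 b → ∀ k a : ℕ, a ≤ 2 * k → FTa F G A 1 b k a

/-- INE: the main theorem in even dimension. -/
def T_INE : Prop := ∀ (K : Type) [Field K] [CharZero K] (J E : Type) [Fintype J] [DecidableEq J]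
  [Fintype E] [DecidableEq E] (F : OForm K J) (G : OForm K E)
  (A : ℕ → Submodule ℚ (List (J ⊕ E) → K)), MCal F G A → MRL F G A → ∀ b : ℕ,
  F.sd = (b : K) → KM F G A (-1) b → ∀ k a : ℕ, a ≤ 2 * k → FTa F G A (-1) b k a

/-- LIN: a subspace with trivial orthogonal complement is everything, up to the radical. -/
def T_LIN : Prop := ∀ (K : Type) [Field K] [CharZero K] (Z : Type) [AddCommGroup Z] [Module K Z]
  [Module ℚ Z] [IsScalarTower ℚ K Z] [FiniteDimensional K Z] (B : Z →ₗ[K] Z →ₗ[K] K)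
  (X Y S : Submodule ℚ Z), S ≤ Y → (∀ x ∈ X, ∀ y ∈ Y, ∃ q : ℚ, B x y = (q : K)) →
  (∀ x ∈ X, (∀ s ∈ S, B x s = 0) → ∀ y ∈ Y, B x y = 0) →
  ∀ y ∈ Y, ∃ s ∈ S, ∀ x ∈ X, B x (y - s) = 0

/-- RAT: the pairings of classes of type `a` are rational. -/
def T_RAT : Prop := ∀ (K : Type) [Field K] [CharZero K] (J E : Type) [Fintype J] [DecidableEq J]
  [Fintype E] [DecidableEq E] (F : OForm K J) (G : OForm K E)
  (A : ℕ → Submodule ℚ (List (J ⊕ E) → K)), MCal F G A →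
  (∀ t ∈ AR A 1, ∃ q : ℚ, con F.η 0 t [] = (q : K)) →
  ∀ (k a : ℕ) (x y : (Fin (2 * k) → J ⊕ E) → K), 1 ≤ a → a ≤ 2 * k → x ∈ Af A k →
  rvf y ∈ Af A k → Tyf a x → Tyf a y → ∃ q : ℚ, pr (osum F G) x y = (q : K)

/-- GLO: all classes are numerically equivalent to elements of `Tau`. -/
def T_GLO : Prop := ∀ (K : Type) [Field K] [CharZero K] (J E : Type) [Fintype J] [DecidableEq J]
  [Fintype E] [DecidableEq E] (F : OForm K J) (G : OForm K E)
  (A : ℕ → Submodule ℚ (List (J ⊕ E) → K)), MCal F G A →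
  (∀ t ∈ AR A 1, ∃ q : ℚ, con F.η 0 t [] = (q : K)) → ∀ (z : K) (b : ℕ),
  (∀ k a : ℕ, a ≤ 2 * k → FTa F G A z b k a) →
  ∀ k : ℕ, ∀ f ∈ Af A k, ∃ s ∈ Tau F G A z b k, ∀ x ∈ Af A k,
    pr (osum F G) x (rvf (f - s)) = 0

end Pool.Agent.H64.FTM
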