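import Pool.Agent.H64.FTM.Targets
import Pool.Agent.H2.KM.Targets2

/-!
# Targets: the Weil cohomology
-/

set_option autoImplicit false

open Matrix Pool.Agent.H64.CC Pool.Agent.H2.NL Pool.Agent.H2.KM Pool.Agent.H64.EV Pool.Agent.H64.EK

namespace Pool.Agent.H64.FTM

/-- a basis of `H(T)` which is adapted to the decomposition of the motive of `T` into `R = (T, 1 - ε)`
(basis `J`) and `(T, ε)` (basis `E`): `j` and `i` are the matrices of the change of basis -/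
structure Basis {K : Type} [Field K] [CharZero K] (W : Weil K) {m : ℕ} {T : W.Var m}
    (P : W.Powers T) (ε : W.Hom T T) {J E : Type} [Fintype J] [DecidableEq J] [Fintype E]
    [DecidableEq E] (F : OForm K J) (G : OForm K E) (j : Matrix (Fin (W.rk T)) (J ⊕ E) K)
    (i : Matrix (J ⊕ E) (Fin (W.rk T)) K) : Prop where
  ij : i * j = 1
  ji : j * i = 1
  form : jᵀ * P.form = (osum F G).η * i
  om : j * (osum F G).ω * jᵀ = P.form⁻¹
  omR : j * Om F E * jᵀ = (1 - ε) * P.form⁻¹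
  proj : j * Matrix.fromBlocks (0 : Matrix J J K) 0 0 (1 : Matrix E E K) * i = ε
  j_par : ∀ a b, j a b ≠ 0 → W.par T a = (osum F G).o b
  i_par : ∀ b a, i b a ≠ 0 → (osum F G).o b = W.par T a
  mcal : MCal F G (pull j P.toPowerData.classes)
  str : W.str (1 - ε) = F.sd

/-- ADE: a homogeneous basis of a direct factor. -/
def T_ADE : Prop := ∀ (K : Type) [Field K] [CharZero K] (N : ℕ) (deg : Fin N → ℕ) (τ : ℕ)
  (η ρ : Matrix (Fin N) (Fin N) K), (∀ a b, η a b ≠ 0 → deg a + deg b = 2 * τ) →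
  (∀ a b, η a b = ks K (decide (Odd (deg a))) (decide (Odd (deg b))) * η b a) → IsUnit η →
  ρ * ρ = ρ → ρᵀ * η = η * ρ → (∀ a b, ρ a b ≠ 0 → deg a = deg b) →
  ∃ (n : ℕ) (j : Matrix (Fin N) (Fin n) K) (i : Matrix (Fin n) (Fin N) K) (dg : Fin n → ℕ)
    (G : OForm K (Fin n)), i * j = 1 ∧ j * i = ρ ∧ jᵀ * η * j = G.η ∧ jᵀ * η = G.η * i ∧
    (∀ a b, j a b ≠ 0 → deg a = dg b) ∧ (∀ b a, i b a ≠ 0 → dg b = deg a) ∧
    (∀ b, G.o b = decide (Odd (dg b)))

/-- MSE: the adapted basis, even dimension. -/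
def T_MSE : Prop := ∀ (K : Type) [Field K] [CharZero K] (W : Weil K), W.Theory →
  ∀ (V : W.Var 0) (L : W.Hom V V), L ∈ W.Lef V → ∀ (r m : ℕ) (T : W.Var m)
  (S : W.Orthogonal V L r T), ∀ ε ∈ W.cyc T T 0, ε * ε = ε →
  εᵀ * S.powers.form = S.powers.form * ε →
  (∀ u, W.Vanishing S.toGenericIntersection u → W.ap ε u = 0) →
  (∀ f ∈ W.cyc T T 0, (∀ u, W.Vanishing S.toGenericIntersection u → W.ap f u = 0) →
    W.str (f * (1 - ε)) = 0) →
  ∃ (n n' n'' : ℕ) (F : OForm K (Fin n ⊕ Fin n')) (G : OForm K (Fin n''))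
    (j : Matrix (Fin (W.rk T)) ((Fin n ⊕ Fin n') ⊕ Fin n'') K)
    (i : Matrix ((Fin n ⊕ Fin n') ⊕ Fin n'') (Fin (W.rk T)) K),
    Basis W S.powers ε F G j i ∧ OSys F (AR (pull j S.powers.toPowerData.classes)) ∧
    (∀ (p q : Fin n) (k : ℕ), ∀ t ∈ pull j S.powers.toPowerData.classes k, ∀ w,
      w.length = 2 * k → der (Matrix.fromBlocks (F.T (Sum.inl p) (Sum.inl q)) 0 0
        (0 : Matrix (Fin n'') (Fin n'') K)) t w = 0)

/-- MSO: the adapted basis, odd dimension. -/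
def T_MSO : Prop := ∀ (K : Type) [Field K] [CharZero K] (W : Weil K), W.Theory →
  ∀ (V : W.Var 0) (L : W.Hom V V), L ∈ W.Lef V → ∀ (r m : ℕ) (T : W.Var m)
  (S : W.Symplectic V L r T), ∀ ε ∈ W.cyc T T 0, ε * ε = ε →
  εᵀ * S.powers.form = S.powers.form * ε →
  (∀ u, W.Vanishing S.toGenericIntersection u → W.ap ε u = 0) →
  (∀ f ∈ W.cyc T T 0, (∀ u, W.Vanishing S.toGenericIntersection u → W.ap f u = 0) →
    W.str (f * (1 - ε)) = 0) →
  ∃ (n n' n'' : ℕ) (F : Form K (Fin n ⊕ Fin n')) (G : OForm K (Fin n''))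
    (j : Matrix (Fin (W.rk T)) ((Fin n ⊕ Fin n') ⊕ Fin n'') K)
    (i : Matrix ((Fin n ⊕ Fin n') ⊕ Fin n'') (Fin (W.rk T)) K),
    Basis W S.powers ε (toO F) G j i ∧ Sys F (AR (pull j S.powers.toPowerData.classes)) ∧
    (∀ (p q : Fin n) (k : ℕ), ∀ t ∈ pull j S.powers.toPowerData.classes k, ∀ w,
      w.length = 2 * k → der (Matrix.fromBlocks (F.T (Sum.inl p) (Sum.inl q)) 0 0
        (0 : Matrix (Fin n'') (Fin n'') K)) t w = 0)

/-- WPU: from `Tau` to tautological correspondences. -/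
def T_WPU : Prop := ∀ (K : Type) [Field K] [CharZero K] (W : Weil K) (m : ℕ) (T : W.Var m)
  (P : W.Powers T) (ε : W.Hom T T) (J E : Type) [Fintype J] [DecidableEq J] [Fintype E]
  [DecidableEq E] (F : OForm K J) (G : OForm K E) (j : Matrix (Fin (W.rk T)) (J ⊕ E) K)
  (i : Matrix (J ⊕ E) (Fin (W.rk T)) K), Basis W P ε F G j i → ∀ (z : K) (b : ℕ),
  (z = -1 → Even (W.dim T)) → ∀ k : ℕ,
  ∀ s ∈ Tau F G (pull j P.toPowerData.classes) z b k, ∃ t : List (J ⊕ E) → K,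
    ev (2 * k) t = s ∧ P.oper k (pf j t) ∈ P.Taut ε b k

/-- WNU: numerically trivial correspondences. -/
def T_WNU : Prop := ∀ (K : Type) [Field K] [CharZero K] (W : Weil K) (m : ℕ) (T : W.Var m)
  (P : W.Powers T) (ε : W.Hom T T) (J E : Type) [Fintype J] [DecidableEq J] [Fintype E]
  [DecidableEq E] (F : OForm K J) (G : OForm K E) (j : Matrix (Fin (W.rk T)) (J ⊕ E) K)
  (i : Matrix (J ⊕ E) (Fin (W.rk T)) K), Basis W P ε F G j i → ∀ k : ℕ,
  ∀ f ∈ W.cyc (P.pow k) (P.pow k) 0, ∃ t ∈ pull j P.toPowerData.classes k,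
    f = P.oper k (pf j t) ∧ ∀ t' : List (J ⊕ E) → K,
    (∀ x ∈ Af (pull j P.toPowerData.classes) k,
      pr (osum F G) x (rvf (ev (2 * k) t - ev (2 * k) t')) = 0) →
    W.NumTrivial (P.pow k) (f - P.oper k (pf j t'))

end Pool.Agent.H64.FTM
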