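import Pool.Agent.H64.FTM.Rows
import Pool.Agent.H64.FTM.Final

/-!
# The numerical motive of a generic complete intersection
-/

set_option autoImplicit false

open Matrix Pool.Agent.H64.CC Pool.Agent.H2.NL Pool.Agent.H64.EK

namespace Pool.Agent.H64.FTM

variable {K : Type} [Field K] [CharZero K] (W : Weil K) (hW : W.Theory)

include hW in
/-- **The numerical motive.** Every correspondence between powers of a generic complete intersection
is numerically equivalent to a tautological one. -/
theorem taut {V : W.Var 0} {L : W.Hom V V} (hL : L ∈ W.Lef V) {r m : ℕ} {T : W.Var m}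
    (S : W.Deligne V L r T) {ε : W.Hom T T} {b : ℕ} (R : Weil.Remainder S ε b) (k : ℕ)
    {f : W.Hom (S.powers.pow k) (S.powers.pow k)}
    (hf : f ∈ W.cyc (S.powers.pow k) (S.powers.pow k) 0) :
    ∃ g ∈ S.powers.Taut ε b k, W.NumTrivial (S.powers.pow k) (f - g) :=
  taut_of W hW t_MRE t_MRO t_KMX t_INO t_INE t_GLO t_MSE t_MSO t_WPU t_WNU hL S R k hf

end Pool.Agent.H64.FTM
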